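import Mathlib
import Pool.Agent.P8H50.SS.Main2

/-!
MP_6f117a_ag, Q1, over `ℂ`: notions of hyperbolicity for all projective surfaces which have a
generically finite rational map to a system of jointly branched cyclic covers of a product of projective
lines, and for higher-dimensional varieties.

`IsGridCover ℂ K` (`Pool/Agent/P8H50/SS/Cls.lean`): the function field `K` contains functions
`x 0, …, x (n - 1)`, over which it is algebraic, and functions `z i ≠ 0` with
`z i ^ m i = ∏ j, P i j (x j)`, where `m i` divides the degrees of the polynomials `P i j`; if `q j ≥ 3`
is the number of the roots of the product of the `P i j` over all `i` then the sum over `j` of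
`(∑ i, deg (P i j) / m i) / (q j - 2)` is less than one. This is a birational condition on the function
field; the varieties can be smooth or singular. `Grids x` (`Pool/Agent/P8H50/SS/Cla.lean`): the
function fields of all closed subvarieties of dimension at least two of the projective variety `X` with
the generic point `x` are in this class.

The notions (`Pool/Agent/Q103/SF/Defs2.lean`, by helper103): `AlgHyp` (algebraically hyperbolic: the
degree of all nonconstant maps from curves of genus `g` is at most `A * (2 * g - 2)`), `AllGeneral` (all
closed subvarieties of positive dimension are of general type), `NoElliptic` (all morphisms from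
elliptic curves are constant), `GeomHyp` (for every pointed curve the morphisms with a given value at
the marked point are finite in number), `BrodyHyp`, `KobayashiHyp`, `PicardHyp` (holomorphic maps from
the punctured disc extend), `NoMero` (meromorphic maps from the spaces `ℂ ^ g` are constant). A
groupless variety satisfies `NoElliptic`, a bounded variety is groupless.

The methods and files of helper103 (`Q103/SF`) and of the authors cited there are used.
-/

set_option autoImplicit false

namespace Pool.Agent.Results.MP_6f117a_ag.SurfacesOverGrids

open Pool.Agent.W602.GT Pool.Agent.P8H50.SS Pool.Agent.P8H50.SG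
open Pool.Agent.P8H50.SG.Sys (GenFinite)
open Pool.Agent.TH466.QG (SubOf)
open Pool.Agent.Y216 (OnVar)
open Pool.Agent.W603.LV (canDeg)
open Pool.Agent.W603.PV (pht)
open Pool.Agent.Q271.RC (Nonconst)
open Pool.Agent.Q103.SF
open FF

/-- (1) Let `X` be a projective variety over `ℂ`, smooth or singular, such that the function fields of
all its closed subvarieties of dimension at least two are in the class `IsGridCover ℂ`. Then the
following are equivalent: `X` is algebraically hyperbolic; all closed subvarieties of positive dimension
of `X` are of general type; all morphisms from elliptic curves to `X` are constant (this holds if `X` is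
bounded or groupless); the pointed maps from curves to `X` are finite in number; `X` is Brody
hyperbolic; `X` is Kobayashi hyperbolic; holomorphic maps from the punctured disc to `X` extend;
meromorphic maps from the spaces `ℂ ^ g` to `X` are constant; there are no closed curves of geometric
genus at most one in `X`.

In any case the closed curves of genus at most one in `X` are finite in number, and there is `A` such
that the degree of every nonconstant map from a curve of genus `g` to `X` is at most `A * (2 * g - 2)`,
if the closure of the image is not one of them.

(2) The hypothesis of (1) holds for all surfaces (and curves) with a function field in the class.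

(3) The hypothesis of (1) holds if there is a system `S` of `r` cyclic covers of the product of `n`
projective lines with `S.Good` and `n ≤ r + 1` such that all closed subvarieties of dimension at least
two of `X` have a rational map to the variety of `S` which is generically finite onto its image. -/
theorem result :
    (∀ (K : Type) [Field K] [Algebra ℂ K] (M : ℕ) (x : Fin (M + 1) → K), x ≠ 0 →
      coords ℂ x = ⊤ → Grids x →
      [AlgHyp x, AllGeneral x, NoElliptic x, GeomHyp x, BrodyHyp x, KobayashiHyp x, PicardHyp x,
        NoMero x, lowCurves x = ∅].TFAE ∧
      (lowCurves x).Finite ∧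
      ∃ A : ℕ, ∀ (L : Type) [Field L] [Algebra ℂ L] [IsFF ℂ L] (v : Fin (M + 1) → L),
        OnVar ℂ x v → Nonconst v → pht ℂ v ≤ A * canDeg ℂ L ∨ van v ∈ lowCurves x) ∧
    (∀ (K : Type) [Field K] [Algebra ℂ K] (d : ℕ), IsGridCover ℂ K → d ≤ 2 →
      Algebra.trdeg ℂ K = d → ∀ (M : ℕ) (x : Fin (M + 1) → K), x ≠ 0 → coords ℂ x = ⊤ →
      Grids x) ∧
    (∀ (K : Type) [Field K] [Algebra ℂ K] (M : ℕ) (x : Fin (M + 1) → K) (n r : ℕ)
      (S : Sys ℂ n r), S.Good → n ≤ r + 1 →
      (∀ (E : Type) [Field E] [Algebra ℂ E] (w : ℕ) (z : Fin (M + 1) → E), SubOf ℂ x z → 2 ≤ w →
        Algebra.trdeg ℂ E = w → ∃ (u v : Fin n → E) (y : Fin r → E), S.Point u v y ∧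
          GenFinite ℂ u v) → Grids x) := by
  refine ⟨fun K _ _ M x hx hgen h => ⟨?_, h.special.finite, h.special.degree⟩,
    fun K _ _ d hK hd htr M x hx hgen => hK.grids hd htr hx hgen,
    fun K _ _ M x n r S hS hn h E _ _ w z hz hw ht => ?_⟩
  · have h1 := h.tfae
    tfae_have 6 ↔ 5 := h1.out 0 1
    tfae_have 5 ↔ 7 := h1.out 1 2
    tfae_have 7 ↔ 8 := h1.out 2 3
    tfae_have 8 ↔ 3 := h1.out 3 4
    tfae_have 3 ↔ 1 := h1.out 4 5
    tfae_have 1 ↔ 2 := h1.out 5 6
    tfae_have 2 ↔ 4 := h1.out 6 7
    tfae_have 4 ↔ 9 := h1.out 7 8
    tfae_finish
  · obtain ⟨u, v, y, h1, h2⟩ := h E w z hz hw ht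
    exact of_system hS hn hw ht h1 h2

end Pool.Agent.Results.MP_6f117a_ag.SurfacesOverGrids
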