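import Pool.Agent.P8H10.HY.Gm
import Pool.Agent.P8H10.HY.Surf

/-!
MP_6f117a_ag: notions of hyperbolicity for the projective varieties with a finite morphism to the
variety of a system of cyclic covers of a product of projective lines (helper10 and helper50).
-/

set_option autoImplicit false

open FF Pool.Agent.W603.LV MvPolynomial Pool.Agent.P8H50.SG Pool.Agent.P8H10.HY
open Pool.Agent.W602.GT (GeneralType)

namespace Pool.Agent.Results.MP_6f117a_ag.SystemsOverGrids

/-- Let `k` be an algebraically closed field of characteristic zero and `X` the variety of the system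
`w i ^ m i = ∏ j, ∏ l, (a i j l * x j + b i j l * y j) ^ e i j l` of `r` equations over the product of
`n` projective lines, where the linear forms are pairwise independent for each `j`, and the sum over
`j` of the quotients (degree in `x j, y j`) / (number of branch points in the `j`-th line - 2) is less
than `m i` for each `i`. Let `Y` be a closed subset of `ℙ^N × X` which is finite over `X`, and `Z` its
part over the locus where all the `w i` vanish.

(a) The morphisms from smooth projective curves of genus `g` to `Y` whose image is not in `Z` have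
degree at most `A max (2 g - 2, 0)`, with an explicit `A` depending only on the system, and the closed
subvarieties of positive dimension of `Y` not contained in `Z` are of general type.

(b) Each of the following notions holds for `Y` if and only if it holds for `Z`: algebraic
hyperbolicity; boundedness of the degrees of the morphisms from each curve; the morphisms from curves
of genus at most one are constant; the morphisms from the multiplicative group and from curves of
genus one are constant; all closed subvarieties of positive dimension are of general type.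

(c) These notions are equivalent for `Y` if the dimension of `Z` is at most one.

(d) The dimension of `Z` is at most `n - r`, and at most one if `Y` is irreducible of dimension at
most two and not equal to `Z`; all the notions hold for `Y` if `n ≤ r`. -/
theorem result {k : Type} [Field k] [IsAlgClosed k] [CharZero k] {N n r : ℕ} (S : Sys k n r)
    (hS : S.Good) (Ψ : Set (MvPolynomial (IY N n r) k)) (hΨ : ∀ F ∈ Ψ, ∃ d, IsFormY S F d)
    (hF : FiniteOver S Ψ) :
    -- (a)
    ((∃ A, S.Bound A) ∧ (∀ A, S.Bound A → ∀ (K : Type) [Field K] [Algebra k K] [IsFF k K]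
      (z : IY N n r → K), YPoint S Ψ z → (∃ i, cw z i ≠ 0) →
        degree k (cx z) (cy z) ≤ A * max (canDeg k K) 0) ∧
      (∀ (K : Type) [Field K] [Algebra k K] (d : ℕ) (z : IY N n r → K), 1 ≤ d → SubY S Ψ d z →
        (∃ i, cw z i ≠ 0) → GeneralType k K d)) ∧
    -- (b)
    (((∃ A, AlgHypY S Ψ A) ↔ ∃ A, AlgHypY S (zpy Ψ) A) ∧
      (BoundedY S Ψ ↔ BoundedY S (zpy Ψ)) ∧
      (LowGenusY S Ψ ↔ LowGenusY S (zpy Ψ)) ∧
      (GroupMapsConstantY S Ψ ↔ GroupMapsConstantY S (zpy Ψ)) ∧
      (AllGeneralTypeY S Ψ ↔ AllGeneralTypeY S (zpy Ψ))) ∧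
    -- (c)
    (ThinY S Ψ → [∃ A, AlgHypY S Ψ A, BoundedY S Ψ, LowGenusY S Ψ, GroupMapsConstantY S Ψ,
      AllGeneralTypeY S Ψ].TFAE) ∧
    -- (d)
    (∀ (K : Type) [Field K] [Algebra k K] (d : ℕ) (z : IY N n r → K), SubY S (zpy Ψ) d z →
      d + r ≤ n) ∧
    (∀ (L : Type) [Field L] [Algebra k L] (d : ℕ) (z : IY N n r → L), SubY S Ψ d z →
      (∀ F c, IsFormY S F c → aeval z F = 0 → F ∈ Ψ) → d ≤ 2 → (∃ i, cw z i ≠ 0) → ThinY S Ψ) ∧
    (n ≤ r → (∃ A, AlgHypY S Ψ A) ∧ BoundedY S Ψ ∧ LowGenusY S Ψ ∧ GroupMapsConstantY S Ψ ∧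
      AllGeneralTypeY S Ψ) := by
  have htf : ThinY S Ψ → [∃ A, AlgHypY S Ψ A, BoundedY S Ψ, LowGenusY S Ψ, GroupMapsConstantY S Ψ,
      AllGeneralTypeY S Ψ].TFAE := by
    intro hT
    have h1 := tfae hS hT hΨ hF
    have h2 := low_iff_group hS hΨ
    tfae_have 1 → 2 := fun h => (h1.out 0 1).1 h
    tfae_have 2 → 3 := fun h => (h1.out 1 2).1 h
    tfae_have 3 → 1 := fun h => (h1.out 2 0).1 h
    tfae_have 3 ↔ 4 := h2
    tfae_have 3 ↔ 5 := h1.out 2 3
    tfae_finish
  have hdim : ∀ (K : Type) [Field K] [Algebra k K] (d : ℕ) (z : IY N n r → K),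
      SubY S (zpy Ψ) d z → d + r ≤ n := by
    intro K _ _ d z V
    obtain ⟨V1, hw⟩ := sub_zpy.1 V
    exact dim_zeroY hS hΨ hF V1 hw
  refine ⟨⟨S.exists_bound hS, fun A hA K _ _ _ z h ⟨i, hi⟩ => S.degree_le hS hA h.point hi,
    fun K _ _ d z hd V ⟨i, hi⟩ => general_typeY hS hΨ hF hd V hi⟩,
    ⟨alg_iff hS, bdd_iff hS, low_iff hS, ?_, gt_iff hS hΨ hF⟩, htf, hdim,
    fun L _ _ d z V h hd ⟨i, hi⟩ => thin_surface hS V h hd hi, fun hn => ?_⟩
  · rw [← low_iff_group hS hΨ, ← low_iff_group hS (form_zpy hΨ)]
    exact low_iff hS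
  · have hT : ThinY S Ψ := fun K _ _ d z V => by
      have := hdim K d z V
      omega
    have hl : LowGenusY S Ψ := by
      rw [low_iff hS]
      intro K _ _ _ z hK hp
      by_contra hdeg
      obtain ⟨P, hP, hff, m, hm1, hPm, -, hc⟩ := curve hS hT hΨ hp hdeg
      have hle : zidY S Ψ ≤ P := hPm.1.2
      have hd : Algebra.trdeg k (FP P) = (1 : ℕ) := by
        rw [IsFF.trdeg (k := k) (K := FP P)]
        simp
      have := hdim (FP P) 1 (gz P) (sub_zpy.2 ⟨gz_sub hS hle hd, (gz_spec hS hle).2.2⟩)
      omega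
    have h1 := htf hT
    exact ⟨(h1.out 2 0).1 hl, (h1.out 2 1).1 hl, hl, (h1.out 2 3).1 hl, (h1.out 2 4).1 hl⟩

end Pool.Agent.Results.MP_6f117a_ag.SystemsOverGrids
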