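import Mathlib
import Pool.Agent.P8H50.NK.Sfs4

/-!
MP_6f117a_ag, Q1, over `ℂ`: notions of hyperbolicity for all projective surfaces, and for varieties of
any dimension, in a birational class of covers of products of projective spaces which are jointly
ramified over hyperplanes in arbitrary position.

`IsSpaceCover ℂ K w` (`Pool/Agent/P8H50/NK/Pcl.lean`): the function field `K` contains the homogeneous
coordinates `y j a` (`a ≤ n j`) of a point of a product of projective spaces of dimensions `n j ≥ 1`
(one coordinate of each factor is equal to one), and is algebraic over the field which they generate;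
`w = ∑ j, n j`; and it contains functions `z i ≠ 0` with
`z i ^ m i = ∏ j, ∏ l, (∑ a, ℓ j l a * y j a) ^ e i j l`, with the conditions `PDat.Good`
(`Pool/Agent/P8H50/NK/PDefs.lean`): each of the hyperplanes `ℓ j l` (`l < q j`) occurs in some equation,
`m i` divides `∑ l, e i j l`, at most `t j ≥ n j` of the hyperplanes of the factor `j` have a common
point, `q j > 2 * t j`, and there are `ρ j ≥ 0` with `∑ j, ρ j < 1` and
`b * (2 * t j + 1 - b) * E j ≤ 2 * ρ j * (q j - (2 * t j + 1 - b))` for `b = 1, …, n j`, where
`E j = ∑ i, (∑ l, e i j l) / m i`. This is a birational condition; the varieties can be smooth or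
singular. `Spaces x` (`Pool/Agent/P8H50/NK/Sfs.lean`): the function fields of all closed subvarieties
of dimension at least two of the projective variety `X` with the generic point `x` are in the class.
`OverSys x S c` (`Pool/Agent/P8H50/NK/Sfs3.lean`): the closed subvarieties of dimension at least `c` of
`X` have generically finite rational maps to the product, with functions `ζ i` which satisfy the
equations of the system `S` (one equation `S i` for each `i < r`), for example if `X` has a finite
morphism to the variety of the system. `SysCodim S c`: the intersections of `r` hyperplanes, one of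
each equation, are empty or of dimension at most `c - 1`.

The notions (`Pool/Agent/Q103/SF/Defs2.lean`, by helper103): `AlgHyp` (algebraically hyperbolic: the
degree of all nonconstant maps from curves of genus `g` is at most `A * (2 * g - 2)`), `AllGeneral`
(all closed subvarieties of positive dimension are of general type), `NoElliptic` (all morphisms from
elliptic curves are constant), `GeomHyp` (for every pointed curve the morphisms with a given value at
the marked point are finite in number), `BrodyHyp`, `KobayashiHyp`, `NoMero` (meromorphic maps from the
spaces `ℂ ^ g` are constant). A groupless variety satisfies `NoElliptic`, a bounded variety is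
groupless, an algebraically hyperbolic variety is bounded.

Authors: helper50 and (project NK: second main theorem of Cartan and Nochka with Wronskians, weights,
joint multiplicities, and its analogue for function fields; models; general type) helpers 16, 20, 37,
45, 52, 53, 54, 61, 65, 68, 69, 71, 75, 76, 86, 88, 94; the methods and files of helper103
(`Q103/SF`) are used for the special sets and the notions of hyperbolicity.
-/

set_option autoImplicit false

namespace Pool.Agent.Results.MP_6f117a_ag.VarietiesOverSpaces

open Pool.Agent.W602.GT Pool.Agent.P8H50.NK
open Pool.Agent.Y216 (OnVar)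
open Pool.Agent.W603.LV (canDeg)
open Pool.Agent.W603.PV (pht)
open Pool.Agent.Q271.RC (Nonconst)
open Pool.Agent.Q103.SF
open FF

/-- (1) Let `X` be a projective variety over `ℂ`, smooth or singular, such that the function fields of
all its closed subvarieties of dimension at least two are in the class `IsSpaceCover`. Then the
following are equivalent: `X` is algebraically hyperbolic; all morphisms from elliptic curves to `X`
are constant (this holds if `X` is bounded or groupless); the pointed maps from curves to `X` are finite
in number; `X` is Brody hyperbolic; `X` is Kobayashi hyperbolic; meromorphic maps from the spaces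
`ℂ ^ g` to `X` are constant; there are no closed curves of geometric genus at most one in `X`.

In any case the closed curves of genus at most one in `X` are finite in number, and there is `A` such
that the degree of every nonconstant map from a curve of genus `g` to `X` is at most `A * (2 * g - 2)`,
if the closure of the image is not one of them.

(2) The hypothesis of (1) holds for all surfaces (and curves) with a function field in the class; for
surfaces over products of projective spaces of dimension two, it is also equivalent that all closed
subvarieties of positive dimension of `X` are of general type.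

(3) The hypothesis of (1) holds if `X` is a variety over a system of `r` equations over a product of
projective spaces, each of which satisfies the conditions, and the intersections of `r` hyperplanes,
one of each equation, have dimension at most one. If they have dimension at most zero, there are no
closed curves of genus at most one in `X`.

(4) This applies to the closed subvarieties `X` of the complete intersections
`w i ^ q i = ∏ j, ∑ l, ℓ i j l * y l` (`i < r`, `j < q i`) if the hyperplanes of all the equations
together are in general position, `(n + 1) * (n + 2) < 2 * q i` and `n ≤ r + 1`; for `n ≤ r` the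
intersections have dimension at most zero. -/
theorem result :
    (∀ (K : Type) [Field K] [Algebra ℂ K] (M : ℕ) (x : Fin (M + 1) → K), x ≠ 0 →
      coords ℂ x = ⊤ → Spaces x →
      [AlgHyp x, NoElliptic x, GeomHyp x, BrodyHyp x, KobayashiHyp x, NoMero x,
        lowCurves x = ∅].TFAE ∧
      (lowCurves x).Finite ∧
      ∃ A : ℕ, ∀ (L : Type) [Field L] [Algebra ℂ L] [IsFF ℂ L] (v : Fin (M + 1) → L),
        OnVar ℂ x v → Nonconst v → pht ℂ v ≤ A * canDeg ℂ L ∨ van v ∈ lowCurves x) ∧
    (∀ (K : Type) [Field K] [Algebra ℂ K] (w d : ℕ), IsSpaceCover ℂ K w → d ≤ 2 →
      Algebra.trdeg ℂ K = d → ∀ (M : ℕ) (x : Fin (M + 1) → K), x ≠ 0 → coords ℂ x = ⊤ →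
      Spaces x ∧ (w = 2 → d = 2 → (AllGeneral x ↔ lowCurves x = ∅))) ∧
    (∀ (K : Type) [Field K] [Algebra ℂ K] (M : ℕ) (x : Fin (M + 1) → K) (s : ℕ)
      (n : Fin s → ℕ) (r : ℕ) (S : Fin r → PDat ℂ n 1), (∀ i, (S i).Good) → (∀ j, 1 ≤ n j) →
      (SysCodim S 2 → OverSys x S 2 → Spaces x) ∧
      (SysCodim S 1 → OverSys x S 1 → Spaces x ∧ lowCurves x = ∅)) ∧
    (∀ (K : Type) [Field K] [Algebra ℂ K] (n r : ℕ) (q : Fin r → ℕ)
      (ℓ : ∀ i, Fin (q i) → Fin (n + 1) → ℂ) (w : Fin r → K) (y : Fin (n + 1) → K),
      (∀ i, w i ^ q i = ∏ j, ∑ l, algebraMap ℂ K (ℓ i j l) * y l) → GenPos ℓ →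
      (∀ i, (n + 1) * (n + 2) < 2 * q i) → n ≤ r + 1 →
      ∃ S : Fin r → PDat ℂ (fun _ : Fin 1 => n) 1, (∀ i, (S i).Good) ∧ SysCodim S 2 ∧
        (n ≤ r → SysCodim S 1) ∧ ∀ c, OverSys (pt w y) S c) := by
  refine ⟨fun K _ _ M x hx hgen hX => ?_, fun K _ _ w d h hd htr M x hx hgen =>
    ⟨h.spaces hd htr hx hgen, fun hw hd2 => ?_⟩, fun K _ _ M x s n r S hS hn => ⟨fun hc h => OverSys.spaces hS hn hc h, fun hc h =>
      ⟨OverSys.spaces hS hn (hc.mono one_le_two) (h.mono one_le_two), OverSys.low hS hc h⟩⟩,
    fun K _ _ n r q ℓ w y h hℓ hq hn => ⟨ciSys q ℓ, ciSys_good hℓ hq,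
      (ciSys_gen hℓ).codim (by simp; omega), fun hr => (ciSys_gen hℓ).codim (by simp; omega),
      fun c => ciSys_over (fun i => by have := two_mul_lt (hq i); omega) h c⟩⟩
  · have h := hX.special
    refine ⟨?_, h.finite, h.degree⟩
    have h1 := tfae h
    tfae_have 5 ↔ 4 := h1.out 0 1
    tfae_have 4 ↔ 6 := h1.out 1 2
    tfae_have 6 ↔ 2 := h1.out 2 3
    tfae_have 2 ↔ 1 := h1.out 3 4
    tfae_have 1 ↔ 3 := h1.out 4 5
    tfae_have 3 ↔ 7 := h1.out 5 6
    tfae_finish
  · subst hw
    subst hd2
    exact allGeneral_iff h htr hx hgen

end Pool.Agent.Results.MP_6f117a_ag.VarietiesOverSpaces
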